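import Pool.Agent.MWGI.StmtsE

/-!
# Row TSW of the table mwgi (MP_23468a_al): exchange of two light letters
-/

set_option autoImplicit false

namespace Pool.Agent.MWGI.H5

open Pool.Agent.Helper14_MV Pool.Agent.Helper2_MV Pool.Agent.MVO Pool.Agent.MWL Pool.Agent.MWS
  Pool.Agent.MWH

/-- larger congruences -/
theorem bi_mono {n : ℕ} {β θ : FIC} (h : β ≤ θ) (hB : BI n (RR β)) : BI n (RR θ) where
  pos := hB.pos
  per := h _ _ hB.per
  r := h _ _ hB.r
  hh := h _ _ hB.hh
  rn := h _ _ hB.rn
  l := h _ _ hB.l
  it := fun p w w' q x hm => h _ _ (hB.it p w w' q x hm)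
  f := fun p q c r x y hm => h _ _ (hB.f p q c r x y hm)
  f' := fun p q c r x y hm => h _ _ (hB.f' p q c r x y hm)
  fe := fun p q w r x a b h1 h2 h3 hm => h _ _ (hB.fe p q w r x a b h1 h2 h3 hm)
  fe' := fun p q w r x a b h1 h2 h3 hm => h _ _ (hB.fe' p q w r x a b h1 h2 h3 hm)

theorem tsw (hTYP : TypStmt) (hHYB : HybStmt) (hNSS : NssStmt) (hSWF : SwfStmt) (hVEC : VecStmt)
    (hVER : VerStmt) (hMSW : MswStmt) (hKSS : KssStmt) (hSQ2 : Sq2Stmt) (hSW0 : Sw0Stmt)
    (hMV3 : Mv3Stmt) : TswStmt := by
  intro n β hBI k B B' hF i a b hi hab ha1 hb1 h1 h0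
  obtain ⟨-, p, hp, hpi, hap⟩ := (hTYP n k B B' hF i hi).2 a ha1
  obtain ⟨-, q, hq, hqi, hbq⟩ := (hTYP n k B B' hF i hi).2 b hb1
  obtain ⟨C, hCok, -, hCp, hCs, hCm, -⟩ := hHYB n k B B' hF i hi
  have hapm : a ∈ B p := by
    have := hap p hp
    rw [if_pos (Or.inr rfl)] at this
    exact List.count_pos_iff.1 (by omega)
  have hbqm : b ∈ B q := by
    have := hbq q hq
    rw [if_pos (Or.inr rfl)] at this
    exact List.count_pos_iff.1 (by omega)
  have hik : i + (k - i) = k := by omega
  by_cases hpq : p = q
  · subst hpq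
    refine ⟨[], by simp, ?_⟩
    intro θ hθ _
    refine ⟨by simp, ?_⟩
    intro _ H haH hbH
    have hB := bi_mono hθ hBI
    have hex := hSWF n k θ C hB hCok i p a b hi hp (Ne.symm hpi) hab ((hCm p hp a).2 hapm)
      ((hCm p hp b).2 hbqm) H haH hbH
    rw [hCp, hCs] at hex
    have hSW : SWx n k θ H (pre B' i) (suf B i (k - i)) a b 1 := by
      rcases hex with h | h
      · exact hVEC n k θ hB H _ _ a b 1 haH hbH h
      · exact hVER n k θ hB H _ _ a b 1 haH hbH h
    refine hMSW n k θ hB H _ _ a b 1 _ haH hbH hSW ?_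
    intro x _
    exact Or.inr (Or.inr ⟨gap n (B i) a b x, by rw [Nat.mul_one]⟩)
  · have hfin : ∀ (θ : FIC) (H : List ℕ), BI n (RR θ) → a ∉ H → b ∉ H →
        ADo k θ H (pre B' i) (suf B i (k - i)) a b →
        (∀ x, (CrW k θ H (pre B' i) (suf B i (k - i)) x a ∨
          CrV k θ H (pre B' i) (suf B i (k - i)) x a) ∨
          (CrW k θ H (pre B' i) (suf B i (k - i)) x b ∨
          CrV k θ H (pre B' i) (suf B i (k - i)) x b)) →
        SWo n k θ H (pre B' i) (suf B i (k - i)) a b (gap n (B i) a b) := by
      intro θ H hB haH hbH hAD hcr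
      refine hMSW n k θ hB H _ _ a b n _ haH hbH (hSW0 n k θ hB H _ _ a b haH hbH hAD) ?_
      intro x _
      rcases hcr x with h | h
      · exact Or.inl (hMV3 n k θ hB H _ _ x a haH h)
      · exact Or.inr (Or.inl (hMV3 n k θ hB H _ _ x b hbH h))
    have hN := fun (θ : FIC) (hr : RR θ (asm k B) (asm k B')) =>
      hNSS n k θ B B' hF hr i p q a b hi hp hq (Ne.symm hpi) (Ne.symm hqi) hpq hab hap hbq h1 h0
    rcases Nat.lt_or_gt_of_ne hpi with hpi' | hpi'
    · rcases Nat.lt_or_gt_of_ne hqi with hqi' | hqi'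
      · -- both before
        refine ⟨[Ed.s3], ?_, ?_⟩
        · intro e he
          rw [List.mem_singleton] at he
          rw [he]
          trivial
        · intro θ hθ _
          have hB := bi_mono hθ hBI
          refine ⟨?_, ?_⟩
          · intro hr e he
            rw [List.mem_singleton] at he
            rw [he]
            exact (hN θ hr).2.2 hpi' hqi'
          · intro hE H haH hbH
            have hE1 := hE Ed.s3 (List.mem_singleton.2 rfl)
            obtain ⟨hV, hA⟩ := (hKSS n k θ H (pre B' i) (suf B i (k - i))).2.2 hE1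
            refine hfin θ H hB haH hbH (hA a b ?_) (fun x => Or.inl (Or.inr (hV x a ?_)))
            · rw [← hCp]
              rcases Nat.lt_or_gt_of_ne hpq with h | h
              · exact Or.inl ((hSQ2 k i p q a b C hi ((hCm p hp a).2 hapm)
                  ((hCm q hq b).2 hbqm) h).2 hqi')
              · exact Or.inr ((hSQ2 k i q p b a C hi ((hCm q hq b).2 hbqm)
                  ((hCm p hp a).2 hapm) h).2 hpi')
            · rw [← hCp]
              exact mem_pre.2 (Or.inr ⟨p, hpi', (hCm p hp a).2 hapm⟩)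
      · -- p < i < q
        refine ⟨[Ed.s2], ?_, ?_⟩
        · intro e he
          rw [List.mem_singleton] at he
          rw [he]
          trivial
        · intro θ hθ _
          have hB := bi_mono hθ hBI
          have hapr : a ∈ pre B' i := by
            rw [← hCp]
            exact mem_pre.2 (Or.inr ⟨p, hpi', (hCm p hp a).2 hapm⟩)
          have hbsf : b ∈ suf B i (k - i) := mem_suf.2 (Or.inr ⟨q, hqi', by omega, hbqm⟩)
          refine ⟨?_, ?_⟩
          · intro hr e he
            rw [List.mem_singleton] at he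
            rw [he]
            exact (hN θ hr).2.1 (Or.inl ⟨hpi', hqi'⟩)
          · intro hE H haH hbH
            have hE1 := hE Ed.s2 (List.mem_singleton.2 rfl)
            obtain ⟨hV, hA⟩ := (hKSS n k θ H (pre B' i) (suf B i (k - i))).2.1 hE1
            exact hfin θ H hB haH hbH (hA a b (Or.inl ⟨hapr, hbsf⟩))
              (fun x => Or.inr (Or.inr (hV x b hbsf)))
    · rcases Nat.lt_or_gt_of_ne hqi with hqi' | hqi'
      · -- q < i < p
        refine ⟨[Ed.s2], ?_, ?_⟩
        · intro e he
          rw [List.mem_singleton] at he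
          rw [he]
          trivial
        · intro θ hθ _
          have hB := bi_mono hθ hBI
          have hbpr : b ∈ pre B' i := by
            rw [← hCp]
            exact mem_pre.2 (Or.inr ⟨q, hqi', (hCm q hq b).2 hbqm⟩)
          have hasf : a ∈ suf B i (k - i) := mem_suf.2 (Or.inr ⟨p, hpi', by omega, hapm⟩)
          refine ⟨?_, ?_⟩
          · intro hr e he
            rw [List.mem_singleton] at he
            rw [he]
            exact (hN θ hr).2.1 (Or.inr ⟨hqi', hpi'⟩)
          · intro hE H haH hbH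
            have hE1 := hE Ed.s2 (List.mem_singleton.2 rfl)
            obtain ⟨hV, hA⟩ := (hKSS n k θ H (pre B' i) (suf B i (k - i))).2.1 hE1
            exact hfin θ H hB haH hbH (hA a b (Or.inr ⟨hbpr, hasf⟩))
              (fun x => Or.inl (Or.inr (hV x a hasf)))
      · -- both behind
        refine ⟨[Ed.s1], ?_, ?_⟩
        · intro e he
          rw [List.mem_singleton] at he
          rw [he]
          trivial
        · intro θ hθ _
          have hB := bi_mono hθ hBI
          have hasf : a ∈ suf B i (k - i) := mem_suf.2 (Or.inr ⟨p, hpi', by omega, hapm⟩)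
          refine ⟨?_, ?_⟩
          · intro hr e he
            rw [List.mem_singleton] at he
            rw [he]
            exact (hN θ hr).1 hpi' hqi'
          · intro hE H haH hbH
            have hE1 := hE Ed.s1 (List.mem_singleton.2 rfl)
            obtain ⟨hW, hA⟩ := (hKSS n k θ H (pre B' i) (suf B i (k - i))).1 hE1
            refine hfin θ H hB haH hbH (hA a b ?_) (fun x => Or.inl (Or.inl (hW x a hasf)))
            rcases Nat.lt_or_gt_of_ne hpq with h | h
            · exact Or.inl ((hSQ2 k i p q a b B hi hapm hbqm h).1 hpi' hq)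
            · exact Or.inr ((hSQ2 k i q p b a B hi hbqm hapm h).1 hqi' hp)

end Pool.Agent.MWGI.H5
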